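import Mathlib
import Pool.Agent.H890.Top

/-!
MP_e23cd6_ag, Q1: the boundary can be removed. Abundance for klt pairs with a `ℚ`-Cartier boundary
follows from abundance for klt varieties without boundary.
-/

set_option autoImplicit false

namespace Pool.Agent.Results.MP_e23cd6_ag.BoundaryRemoval

open FF Pool.Agent.Y172 Pool.Agent.R887 Pool.Agent.H890

/-- (1) Let `X` be a normal projective variety over `ℂ` of dimension `n ≥ 1` with function field `K`
(`y` is its generic point, in homogeneous coordinates), let `Δ` be an effective `ℚ`-divisor such that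
`b Δ` is Cartier, `b ≥ 2`, and let `(X, Δ)` be log canonical. Then there is a normal projective
variety `V` of dimension `n + 2 b - 2`, with generic point `v` and function field `M`, birational to
`X × P ^ (2 b - 2)` (`M` is the field of rational functions in `2 b - 2` variables `t` over `K`),
such that

* `V` is log canonical, and klt if `(X, Δ)` is klt (here `V` is taken without boundary);
* `K_V` is nef if `K_X + Δ` is nef;
* `K_V` is semiample if and only if `K_X + Δ` is semiample.

(2) Hence abundance for the klt varieties without boundary (of all dimensions) is equivalent to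
abundance for the klt pairs `(X, Δ)` (of all dimensions) such that `Δ` is an effective `ℚ`-divisor
and some multiple `b Δ`, `b ≥ 1`, is Cartier. -/
theorem result :
    (∀ (K : Type) [Field K] [Algebra ℂ K] (n b N : ℕ) (y : Fin (N + 1) → K)
      (Δ : Place ℂ K → ℚ), Algebra.trdeg ℂ K = n → 1 ≤ n → 2 ≤ b → NormalModel y →
      Effective y Δ → CartierMul y n b Δ → LogCanonical y n Δ →
      ∃ (M : Type) (_ : Field M) (_ : Algebra ℂ M) (_ : Algebra K M) (_ : IsScalarTower ℂ K M)
        (t : Fin (2 * b - 2) → M) (N' : ℕ) (v : Fin (N' + 1) → M), AlgebraicIndependent K t ∧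
        IntermediateField.adjoin K (Set.range t) = ⊤ ∧
        Replaces v (n + (2 * b - 2)) y n Δ) ∧
    ((∀ (K : Type) [Field K] [Algebra ℂ K] (n : ℕ), Algebra.trdeg ℂ K = n →
        VarietyAbundance K n) ↔
      ∀ (K : Type) [Field K] [Algebra ℂ K] (n b : ℕ), Algebra.trdeg ℂ K = n → 1 ≤ b →
        PairAbundance K n b) :=
  ⟨fun K _ _ _ _ _ _ _ hn hn1 hb hy hΔ hcar hlc => removal K hb hn1 hn hy hΔ hcar hlc,
    equivalence⟩

end Pool.Agent.Results.MP_e23cd6_ag.BoundaryRemoval
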