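import Pool.Agent.H897.GC

/-!
MP_e23cd6_ag, Q1: the Kodaira dimension and nonvanishing for pairs whose orbifold tangent sheaf is
stable with respect to the distributions which are invariant under the birational automorphisms.

**The pair.** `NormalModel y` (`Pool/Agent/Y172/Defs.lean`): `y` is the generic point, in
homogeneous coordinates, of a normal projective variety `X` with function field `K`,
`n = dim X ≥ 1`. `Boundary y Δ`: `Δ` is a `ℚ`-divisor with coefficients `Δ P` between `0` and `1`
at the prime divisors `P` (`IsPrimeDivisor y P`), for instance the boundary of a klt pair.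
`IsSection y n d D ω`: `ω` is a section of `d K_X + D`. `kodairaDim y n Δ`: the Kodaira dimension of
`K_X + Δ`.

**Degrees** (`RG.lean`, `VE.lean`). `MovableClass y α`: `α` is a linear function on the divisors
which is nonnegative on the prime divisors and `0` on principal divisors. `HasDeg y α e s`: the
divisor `∑ e P • P` has the degree `s`. `LogDegree y n Δ α c`: the degree of `K_X + Δ` is `c`. A
distribution is a `K`-subspace `F` of the space of the rational vector fields; it is the generic
fibre of a saturated subsheaf of the orbifold tangent sheaf `T (X, Δ)` of Campana, which has the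
frame `E i`, `i ≠ i0`, `x ^ δ • E i0` along a prime divisor `P` with equation `x` and coefficient
`δ` (the `E i`, `i ≠ i0`, tangent to `P` if `δ ≠ 0`). `SubDeg y n Δ α F s`: the degree of this
subsheaf is `s`; it is computed with the orders of `D 0 ∧ ⋯ ∧ D (r - 1)` for a basis `D` of `F`
(`WedgeOrd`).

**The tensors** (`TS.lean`, `RH.lean`). `Twisted a T`: `T` is a rational section of
`(Ω¹) ^ ⊗ m ⊗ O (a K_X)`, given as a tensor `T E` which depends on the choice of a basis `E` of the
rational vector fields and is multiplied with `det A ^ a` if `E` is changed by the matrix `A`.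
`OrbAtL δ ℓ P a T`: along the prime divisor `P` with the coefficient `δ = Δ P`, it is a section of
the `m`-th tensor power of the orbifold cotangent sheaf `Ω¹ (X, Δ)` with values in
`a (K_X + Δ) + L`, `ℓ = L P`. For `Δ = 0`, `a = 0` and `L = 0` these are the holomorphic tensors.

**Equivariant stability** (`GA.lean`, `GC.lean`). Let `S` be a set of such tensors. `PresPluri y n Δ
φ`: the birational automorphism `φ` of `X` (an automorphism of `K`) preserves the sections of the
multiples of `K_X + Δ`, for instance any birational automorphism if `X` is smooth and `Δ = 0`.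
`InvDist y n Δ S F`: the distribution `F` is invariant under all such `φ` which pull `S` back into
`S`, for instance under `Bir (X)`, if `X` is smooth, `Δ = 0`, and `S` is the set of all holomorphic
tensors of degree `m`. `EquivStable y n Δ α c S`: for each **invariant** distribution `F` of rank
`0 < r < n` the degree of `F` is smaller than `- r c / n`, so that the slope is smaller than the
slope of `T (X, Δ)`. The movable class `α` need not be invariant.

**Theorem.** Let `T (X, Δ)` be equivariantly stable with respect to `α`, and let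
`c = (K_X + Δ) . α`.
(1) If `α ≠ 0` and `c ≤ 0` then `κ (K_X + Δ) ≤ 0`.
(2) Let `S` be a set of sections of the `m`-th tensor power of `Ω¹ (X, Δ)` with values in
`a (K_X + Δ) + L`, not all `0`, `p = m + n a ≥ 0`, of slope at most `0`: `n L . α ≤ - p c`. Then
`M (p (K_X + Δ) + n L)` has a nonzero section for some `M ≥ 1`.
(3) If moreover `α ≠ 0`, `c ≤ 0`, `L = 0` and `p ≥ 1` then `κ (K_X + Δ) = 0`.
So if there are no invariant distributions at all, and `K_X + Δ` is not big, then `κ (K_X + Δ) ≤ 0`,
and the existence of one nonzero tensor in an invariant set implies nonvanishing,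
`κ (K_X + Δ) = 0`.

**Proof.** (2): the canonical optimal flag of `S` (Kempf) is invariant; the semi-invariants of the
leading part (Ramanan-Ramanathan) give an effective divisor in the class of
`M (p (K_X + Δ) + n L) + ∑ A k (n det F_k + k (K_X + Δ))`, so by the equivariant stability all `A k`
are `0`. (1): suppose that the ratios of the sections are not all constant. The vector fields which
annihilate them are an invariant distribution `F` (`iitDist`); the forms `ω dη - η dω` for sections
`ω`, `η` show that `det F + (1 + t) (K_X + Δ)` is effective for some `t ≥ 0` (`iit_deg`), so the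
slope of `F` is at least the slope of `T (X, Δ)`, if `c ≤ 0`. If `F = 0` then the function field is
algebraic over the field of the ratios, and for each prime divisor `P` there is a section which
vanishes along `P`, so that `α = 0` (`iit_bot`).
-/

set_option autoImplicit false

open FF Pool.Agent.W602.GT Pool.Agent.Y172 Pool.Agent.NH31 Pool.Agent.H897

namespace Pool.Agent.Results.MP_e23cd6_ag.EquivariantStability

/-- **Pairs with equivariantly stable orbifold tangent sheaf.** -/
theorem result {K : Type} [Field K] [Algebra ℂ K] {N n m : ℕ} {y : Fin (N + 1) → K}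
    (hy : NormalModel y) (hn : Algebra.trdeg ℂ K = n) (hn1 : 1 ≤ n) {Δ : Place ℂ K → ℚ}
    (hΔ : Boundary y Δ) {α : Place ℂ K → ℝ} (hα : MovableClass y α) {c : ℝ}
    (hc : LogDegree y n Δ α c)
    {S : Set ((Fin n → Derivation ℂ K K) →
      MultilinearMap K (fun _ : Fin m => Derivation ℂ K K) K)}
    (hst : EquivStable y n Δ α c S) :
    ((∃ P, IsPrimeDivisor y P ∧ 0 < α P) → c ≤ 0 → kodairaDim y n Δ ≤ 0) ∧
    ∀ (p : ℕ) (a : ℤ) (L : Place ℂ K → ℚ) (lam : ℝ), 1 ≤ m → (p : ℤ) = m + n * a →
      HasDeg y α (fun P => L P) lam → n * lam ≤ -(p * c) → (∀ T ∈ S, Twisted a T) →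
      (∀ T ∈ S, ∀ P, IsPrimeDivisor y P → OrbAtL (Δ P) (L P) P a T) →
      (∃ T ∈ S, ∃ E, IsFrame E ∧ T E ≠ 0) →
        (∃ (M : ℕ) (ω : (Fin n → Derivation ℂ K K) → K), 1 ≤ M ∧ ω ≠ 0 ∧
          IsSection y n (M * p) ((M * p) • Δ + (n * M) • L) ω) ∧
        ((∃ P, IsPrimeDivisor y P ∧ 0 < α P) → c ≤ 0 → (∀ P, IsPrimeDivisor y P → L P = 0) →
          1 ≤ p → kodairaDim y n Δ = 0) := by
  refine ⟨fun hα0 hc0 => (equiv_kod hy hn hΔ hα hα0 hc hc0 hst).1,
    fun p a L lam hm hp hL hdeg hT hTO hT0 => ?_⟩
  obtain ⟨M, ω, h1, h2, h3⟩ := equiv_sec hy hn hn1 hΔ hα hc hm hp hL hdeg hst hT hTO hT0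
  refine ⟨⟨M, ω, h1, h2, h3⟩, fun hα0 hc0 hL0 hp1 => ?_⟩
  refine (equiv_kod hy hn hΔ hα hα0 hc hc0 hst).2 (M * p) ω (Nat.mul_pos h1 hp1) h2
    ⟨h3.1, fun P hP => ?_⟩
  have h4 := h3.2 P hP
  have h5 : ((M * p) • Δ + (n * M) • L) P = ((M * p) • Δ) P := by
    rw [Pi.add_apply, Pi.smul_apply (n * M) L P, hL0 P hP, smul_zero, add_zero]
  rw [h5] at h4
  exact h4

end Pool.Agent.Results.MP_e23cd6_ag.EquivariantStability
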