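import Pool.Agent.H896.IQ.Eff

/-!
# Abundance for klt pairs on compact quotients of `ℂ^n × P^{r_1} × ... × P^{r_c}` by isometries

Let `V = ℂ^n`, `F = P^{r_1} × ... × P^{r_c}`, and let `Γ` be any group of holomorphic isometries of `V × F`
(with the flat metric of `V` and the Fubini-Study metrics) which acts properly discontinuously with a
compact quotient `X = (V × F) / Γ`. The group may have fixed points, it may permute the factors of `F`, and
it may contain elements which fix the points of divisors: reflections of `V`, reflections of the factors
of `F`, and exchanges of two factors `P^1`. So `X` is a quotient by a finite group of a fibre product of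
projective bundles over a complex torus which are given by arbitrary projectively unitary
representations of the lattice; they need not be direct sums of line bundles, nor come from vector
bundles. Let `B` be an effective divisor with rational coefficients on `X` such that `(X, B)` is klt, and
let `m (K_X + B)` be integral and Cartier. The theorem: `K_X + B` is nef if and only if it is
`ℚ`-effective, if and only if it is semiample. (If `X` is projective this contains the abundance
conjecture and the nonvanishing conjecture for `(X, B)`, and says that `X` itself is a good minimal model
as soon as `K_X + B` is effective; `X` need not be projective.)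

The library contains the theorem that nef implies semiample for direct sums of flat line bundles and
groups which preserve the factors of `F` (`T2H08/FlatQuotientPairs` of the run 707910d6, a module without
hand-in). New here:

* there are coordinates of `F` in which a subgroup of finite index is diagonal (`IQ/Vir.lean`): by
  Bieberbach's theorem (`IQ/Bie.lean`, from the library theorem `H775/KE/J2`) `Γ` contains a lattice of
  translations up to finite index; the elements above it, normalised to have determinant one on the
  coordinates of each factor, form a central-by-abelian group: an extension of a finitely generated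
  abelian group by a finite group, and such a group has a commutative subgroup of finite index
  (`IQ/Grp.lean`); commuting unitary transformations have a common orthonormal basis of eigenvectors
  (`IQ/Dia.lean`), and the pair and the line bundle are carried to the new coordinates (`IQ/Core.lean`);
* groups which permute the factors, and the divisors fixed by exchanges of two factors `P^1`
  (`IQ/Nrm.lean`);
* effective divisors are nef (`IQ/Eff.lean`), so that the three properties are equivalent.

The definitions are in `Pool.Agent.H896.IQ.Stmt`, and `Co`, `IsPt`, `mulBy`, `Trans`, `onV`, `onZ`, `jac`,
`same`, `lin`, `IsHomog`, `IsEffective` and `IsKlt` in `Pool.Agent.T2H08.FQ.Stmt`; `IsHermitian` is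
defined in `Pool.Agent.W594.SYZ.Defs2` and `IsNefForm` in `Pool.Agent.W594.SYZ.TQDefs`.
-/

set_option autoImplicit false

namespace Pool.Agent.Results.MP_e23cd6_ag.IsometryQuotientPairs

open Pool.Agent.T2H08.FB (Co Trans IsEffective IsKlt)
open Pool.Agent.H896.IG

/-- Let `X = (V × F) / Γ` be a compact quotient of `V × F`, `V = ℂ^n`, `F = P^{r 0} × ... × P^{r (c - 1)}`, by
a discrete group of holomorphic isometries. Let the entire function `ρ` on `V` and the polynomial `σ`
define the ramification divisor of `V × F → X`, let `β` define the pullback of the effective divisor
`m B`, let `(X, B)` be klt and `L = O_X (m (K_X + B))`, with the class `H + ∑ deg j ω_j`. Then `K_X + B` is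
nef if and only if it is `ℚ`-effective, if and only if it is semiample. -/
theorem result {n c : ℕ} {r : Fin c → ℕ} (Γ : Subgroup (Trans n r)) (hΓ : IsIsometryGroup Γ)
    (ρ : (Fin n → ℂ) → ℂ) (σ : MvPolynomial (Co r) ℂ) (l : Fin c → ℕ)
    (hρ : IsRamification Γ ρ σ l) (m : ℕ) (hm : 1 ≤ m)
    (β : (Fin n → ℂ) → MvPolynomial (Co r) ℂ) (k : Fin c → ℕ) (hβ : IsEffective β k)
    (L : LineBundle Γ) (hL : IsLogPluricanonical L m ρ σ l β k) (hklt : IsKlt m ρ σ β)
    (H : (Fin n → ℂ) → (Fin n → ℂ) → ℂ) (hc : L.IsChernForm H) :
    [L.IsNef H, L.IsQEffective, L.IsSemiample].TFAE := by
  tfae_have 1 → 3 := fun h => semiample_of_nef hΓ hρ hm hβ hL hklt hc h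
  tfae_have 3 → 2 := effective_of_semiample
  tfae_have 2 → 1 := fun h => nef_of_effective hΓ hc h
  tfae_finish

end Pool.Agent.Results.MP_e23cd6_ag.IsometryQuotientPairs
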