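import Pool.Agent.H891.OM.Kod
import Pool.Agent.H891.OM.Grow
import Pool.Agent.H891.OM.Shearer

/-!
# Abundance for klt pairs and their orbifold images

MP_e23cd6_ag, Q1. Let `(V, Δ)` be a klt (or log canonical) pair of dimension `n`, `K` the function
field of `V`. A multivalued map of `V` is a rational map `φ : V' ⇢ Y` of a Galois covering `V' → V`,
with function field `L ⊇ K`, onto a variety `Y`, i.e. a subfield `ℂ(Y)` of `L`. Let `(Y j, Δ j)`
(`j < r`) be pairs, `φ j : V ⇢ Y j` multivalued maps, with fibres `F j` of dimension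
`f j = n - dim (Y j) ≥ 1`, and let `T j` be the tangent spaces of the `F j` at the general point of
`V`. We assume:

(A) There are rational weights `q j = c j / d > 0` with
`n - dim U ≤ ∑ q j (f j - dim (U ∩ T j))` for all distributions `U ⊆ T_V` on `V`, and
`n = ∑ q j f j`
(the condition of Bennett, Carbery, Christ and Tao for the Brascamp-Lieb inequalities, but only for
the subspaces `U` of the tangent space at the general point which are rational over `K`).

(B) The `φ j` are maps of orbifolds `(V', Δ') ⇢ (Y j, Δ j)` (`OrbMap`), where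
`K_V' + Δ' = π^* (K_V + Δ)`: for all divisors `w` over `V'` the log discrepancy `e (1 - δ v)` of `w`
with respect to `(V', Δ')` (`w` lies over the divisor `v` over `V` with the ramification index `e`, and
`1 - δ v` is the log discrepancy of `v`) is in `[0, 1]` (i.e. `Δ'` is effective) and at most
the log discrepancy `i (1 - δ u)` of the valuation `i u` which `w` induces on `ℂ(Y j)`, if this is not
trivial. For the divisors `w` of `V'` such that `φ j (w)` is a divisor this is the condition of Campana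
for maps of orbifolds. It is enough to have (B) for the prime divisors of `V'` if `K_V + Δ` is
`ℚ`-Cartier and the `(Y j, Δ j)` are log canonical: the sections of `m (K_V + Δ)`, and the growth of
the sections of `m (K_V + Δ) + A`, do not change if one replaces the log discrepancies of the
exceptional divisors of `V` by `0` (`δ v = 1`), and for these divisors (B) is trivially satisfied.

Put `p j = c j / d'`, `d' = ∑ c j - d`; so `n = ∑ p j dim (Y j)` and `dim U ≤ ∑ p j dim (dφ j (U))` for
all `U`. Then: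

(0) **A class of systems with (A).** Let `V ⇢ X 1 × ... × X m` be a generically finite dominant
(multivalued) map, let `S j` (`j < r`) be proper subsets of `{1, ..., m}`, and let `V ⇢ Y j` be maps
over which `V ⇢ ∏ X i` (`i ∈ S j`) factors, with `Y j` generically finite over this partial product
(for example its Stein factorization). If each `i` is in the complements of the `S j` with the total
weight `∑ q j = 1`, i.e. `∑ p j = 1` over the `S j` which contain `i`, then (A) is satisfied (the
inequality of Loomis-Whitney, Finner, Shearer). In the theorem the system is given by coordinates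
`z i` of the factors. So e.g. for the `Y S` with `|S| = s`: `p = 1 / (m - 1 choose s - 1)`; for
`m = 3`, `s = 2`: `ν(V) ≥ (ν(Y 12) + ν(Y 13) + ν(Y 23)) / 2`, and
`ν(V) ≤ ν(F 12) + ν(F 13) + ν(F 23)` for the fibres. Note that the `Y S` are ramified over the products,
so this is much more than `κ(V) ≥ ∑ κ(X i)`.

(1) **Inequality for the plurigenera.** There is a number `D ≥ 1` such that, if the maps are
single-valued, for all `T`

`∏ h⁰ (Y j, T (K + Δ j)) ^ (D c j) ≤ h⁰ (V, T d' D (K + Δ)) ^ (d' D)`,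

and for multivalued maps the same up to a factor, with arbitrary twists: for all divisors `A j` on the
`Y j` there is a divisor `A'` on `V` such that for all `T`, with `g = [L : K]`,

`∏ h⁰ (Y j, T (K + Δ j) + A j) ^ (g D c j) ≤ (g h⁰ (V, T d' g D (K + Δ) + A')) ^ (d' g D)`.

(2) `ν(V, K + Δ) ≥ ∑ p j ν(Y j, K + Δ j)`, for `ν(Y j) ≥ ν j` in the sense that the sections of
`m (K + Δ j) + A j` grow at least like `m ^ ν j`. If there is equality, `ν(V) = ∑ p j ν j`, then they do
not grow faster: `ν(Y j) = ν j`.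

(3) **Abundance.** If `ν(V, K + Δ) ≤ ∑ p j κ(Y j, K + Δ j)` then `κ = ν` holds for
`(V, Δ)` and for all the images `(Y j, Δ j)`: `κ(V) = ν(V) = ∑ p j κ(Y j)` and
`κ(Y j) = ν(Y j)` for all `j`.

(4) `ν(V, K + Δ) ≤ ∑ q j ν(F j, K + Δ)`. So the assumption of (3) is satisfied if
`∑ q j ν(F j, K + Δ) ≤ ∑ p j κ(Y j, K + Δ j)`.

For a klt pair with nef `K + Δ`, `κ = ν` implies that `K + Δ` is semiample (Kawamata); this is not
used.

Examples. (a) Orbifold étale coverings, quotients: `V = V' / G` with the boundary `Δ` with the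
coefficients `1 - 1 / m`, `m` the ramification index, so `Δ' = 0` on `V'`; here the `φ j` can be all
rational maps of `V'` to varieties `Y j` with canonical singularities (`Δ j = 0`), and more generally
(`Δ' = ∑ (1 - 1 / m i) D i`) the maps of orbifolds in the sense of Campana. (b) Open varieties: `V°`,
`Y°j` with multivalued morphisms `V° → Y°j` on an étale covering of `V°`, `Δ` and `Δ j` the reduced
boundaries: inequalities for the logarithmic plurigenera. (c) One multivalued map to a pair
`(Y, Δ_Y)` with `dim Y = y`: `p = n / y`; (A) is `dim U / n ≤ dim (dφ (U)) / y`, a stability condition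
for the conjugates of the tangent space of the fibre; so `ν(V) / n ≥ ν(Y) / y`, and if
`κ(V) = ν(V)` and `κ(V) / n = κ(Y) / y` then `κ(Y) = ν(Y)`.

Compared with `ReverseBrascampLieb` (MP_c2a5fc_ag): there the ramification bound
`∑ c j a j ≤ d' (1 - e (1 - δ v))` is assumed (`a j = 1 - i (1 - δ u)` or `0`), which depends on the
weights and is usually false for pairs, e.g. if `δ v` and all the `δ u` are near to `1`, because
`∑ c j > d'`. Neither of the two conditions implies the other one. `OrbifoldMaps` (MP_bc213e_ag) is the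
inequality for the divisors `K_V + Δ ≥ ∑ p j φ j^* (K + Δ j)` under the condition (B): this gives only
products of single sections, and nothing for `ν`.

Conventions. The fibres of `φ j` are given by the algebraic closure `B j` of `ℂ(Y j)` in the algebraic
closure of `K` (`IsFibres`). `BLDist`: the condition (A), where `IsDistribution U` means that `U` is
generated by derivations which map `K` into itself, and `Tan (B j)` are the derivations of the
algebraic closure of `K` which vanish on `B j`. `PairSec k M n δ S m b ω`: the rational `m`-canonical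
form `ω` is a section of `m (K + Δ) + b A`, `Δ` the divisor with the multiplicities `δ v` at the prime
divisors over the variety with function field `M`, and `A` the divisor generated by the finite set `S`
of functions (`S = {1}`, `b = 0`: a section of `m (K + Δ)`). `HasIndep k M n N P`: there are `N`
linearly independent forms with the property `P`. `PairKod k M n δ h`: `κ(K + Δ) ≥ h`.
`PairNum k M n δ h`: `ν(K + Δ) ≤ h`, that is `h⁰(m (K + Δ) + A) ≤ C m ^ h` for all `A`.
`NumGe k M n δ h`: `ν(K + Δ) ≥ h`, that is `h⁰(m (K + Δ) + A) ≥ m ^ h / C` for all `m ≥ 1`, for some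
`A`, `C`; this follows from `κ(K + Δ) ≥ h` (part (5) of the theorem). `IsRestrMem B δ δ'`: `δ'` is the
restriction of `δ` to the general member, `MemNum B f δ' ν`: `ν(F, K + Δ) ≤ ν` for the geometric
generic member.

The proof. The products of the elements of spaces of sections on the different `Y j` generate a
large space of functions (leading forms of Taylor expansions, as in `ReverseBrascampLieb`); with a
determinantal factor and traces they give twisted sections on `V`. At a divisor `w` with the log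
discrepancy `μ = e (1 - δ v)` let `M` be the number of the `N` summands (`N = d' g D`) whose map is not
trivial at `w`. If `M ≤ N` the determinant is estimated by holomorphic forms and it is sufficient that
`∑ (1 - i (1 - δ u)) ≤ N (1 - μ)`; if `M ≥ N` it is estimated by logarithmic forms and it is sufficient
that `∑ i (1 - δ u) ≥ N μ`. Both follow from (B).
-/

set_option autoImplicit false

open FF Pool.Agent.W619.TW Pool.Agent.Y174 Pool.Agent.H891.TY Pool.Agent.H891.BL
  Pool.Agent.H891.RH Pool.Agent.H891.RB Pool.Agent.H891.OM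

namespace Pool.Agent.Results.MP_e23cd6_ag.OrbifoldImages

/-- **Reverse Brascamp-Lieb inequality for the orbifold images of pairs.** Let `V` be a projective
variety of dimension `n` with function field `K`, `L` a finite Galois extension of `K`, and let
`Y j ⊆ L` be function fields of varieties of dimension `y j`; let `B j` be the algebraic closure of
`Y j`, i.e. the family of the fibres of the multivalued map `V ⇢ Y j`, of dimension `f j = n - y j`.
Let the weights `c j / d`, `c j ≥ 1`, `∑ c j f j = d n`, satisfy the Brascamp-Lieb condition for all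
distributions on `V` (`BLDist`), and let `d' = ∑ c j - d ≥ 1`. Let `g = [L : K]`. Then (1) - (5) are
true; part (0) gives a class of systems for which the condition is satisfied.

(0) If `z` is a transcendence basis of the algebraic closure of `K`, `z i ∈ B j` for `i ∈ S j`,
`f j = n - |S j|`, and the sum of the `c j` with `i ∉ S j` is `d` for all `i`, then `∑ c j f j = d n`
and the Brascamp-Lieb condition is satisfied.

(1) There is a `D ≥ 1` such that for all divisors `A j` on `Y j` (generated by `S j`) there is a divisor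
`A'` on `V` (generated by `S'`) such that for all divisors `Δ`, `Δ j` for which the maps are maps of
orbifolds (`OrbMap`), all `T`, `b` and all `P j` sections of `T (K + Δ j) + b A j` on `Y j`:
`∏ P j ^ (g D c j) ≤ (g h⁰(T d' g D (K_V + Δ) + (b + 1) A')) ^ (d' g D)`; and for `L = K`:
`∏ h⁰(Y j, T (K + Δ j)) ^ (D c j) ≤ h⁰(V, T d' D (K + Δ)) ^ (d' D)`.

For all divisors `Δ`, `Δ j` with `OrbMap`:

(2) If `ν(V) ≤ h` and `ν(Y j) ≥ ν j` then `∑ c j ν j ≤ d' h`; if there is equality then `ν(Y j) ≤ ν j`.

(3) If `κ(Y j) ≥ κ j`, `d' h ≤ ∑ c j κ j` and `ν(V) ≤ h` then `κ(V) ≥ h` and `ν(Y j) ≤ κ j`, so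
`κ(V) = ν(V) = h`, `κ(Y j) = ν(Y j) = κ j`, and `d' h = ∑ c j κ j`.

(4) If `ν(F j, K + Δ) ≤ ν j` for all `j` and `∑ c j ν j ≤ d h` then `ν(V) ≤ h`.

(5) `κ(Y j) ≥ h` implies `ν(Y j) ≥ h`. -/
theorem result {K : Type} [Field K] [Algebra ℂ K] [Algebra.EssFiniteType ℂ K] {n : ℕ}
    (hn : Algebra.trdeg ℂ K = n) {r : ℕ} (B : Fin r → IntermediateField ℂ (AlgebraicClosure K))
    (f c : Fin r → ℕ) (d : ℕ) :
    (∀ (z : Fin n → AlgebraicClosure K) (S : Fin r → Finset (Fin n)),
      IsTranscendenceBasis ℂ z → (∀ j, ∀ i ∈ S j, z i ∈ B j) → (∀ j, f j + (S j).card = n) →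
      (∀ i, ∑ j ∈ Finset.univ.filter (fun j => i ∉ S j), c j = d) →
      ∑ j, c j * f j = d * n ∧ BLDist n B f c d) ∧
    ∀ (L : IntermediateField K (AlgebraicClosure K)) [FiniteDimensional K L] [IsGalois K L]
    (Y : Fin r → IntermediateField ℂ L) [∀ j, Algebra.EssFiniteType ℂ (Y j)] (y : Fin r → ℕ)
    (_ : ∀ j, IsFibres L (Y j) (B j) n (y j) (f j)) (_ : ∀ j, 1 ≤ c j) (d' : ℕ) (_ : 1 ≤ d)
    (_ : 1 ≤ d') (_ : d + d' = ∑ j, c j) (_ : ∑ j, c j * f j = d * n) (_ : BLDist n B f c d),
    (∃ D : ℕ, 0 < D ∧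
      (∀ S : ∀ j, Finset (Y j), ∃ S' : Finset K, ∀ (δ : Place ℂ K → ℝ)
        (δY : ∀ j, Place ℂ (Y j) → ℝ), OrbMap n L δ Y δY →
        ∀ (T b M : ℕ) (P : Fin r → ℕ),
        (∀ j, HasIndep ℂ (Y j) (y j) (P j) (PairSec ℂ (Y j) (y j) (δY j) (S j) T b)) →
        (∀ M', HasIndep ℂ K n M'
          (PairSec ℂ K n δ S' (T * (d' * Nat.card (L ≃ₐ[K] L) * D)) (b + 1)) → M' ≤ M) →
        ∏ j, P j ^ (Nat.card (L ≃ₐ[K] L) * (D * c j)) ≤
          (Module.finrank K L * M) ^ (d' * Nat.card (L ≃ₐ[K] L) * D)) ∧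
      (L = ⊥ → ∀ (δ : Place ℂ K → ℝ) (δY : ∀ j, Place ℂ (Y j) → ℝ), OrbMap n L δ Y δY →
        ∀ (T M : ℕ) (P : Fin r → ℕ),
        (∀ j, HasIndep ℂ (Y j) (y j) (P j) (PairSec ℂ (Y j) (y j) (δY j) {1} T 0)) →
        (∀ M', HasIndep ℂ K n M' (PairSec ℂ K n δ {1} (T * (d' * D)) 0) → M' ≤ M) →
        ∏ j, P j ^ (D * c j) ≤ M ^ (d' * D))) ∧
    (∀ (δ : Place ℂ K → ℝ) (δY : ∀ j, Place ℂ (Y j) → ℝ), OrbMap n L δ Y δY → ∀ h : ℕ,
      (PairNum ℂ K n δ h → ∀ ν : Fin r → ℕ, (∀ j, NumGe ℂ (Y j) (y j) (δY j) (ν j)) →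
        ∑ j, c j * ν j ≤ d' * h ∧
          (∑ j, c j * ν j = d' * h → ∀ j, PairNum ℂ (Y j) (y j) (δY j) (ν j))) ∧
      (∀ κ : Fin r → ℕ, (∀ j, PairKod ℂ (Y j) (y j) (δY j) (κ j)) → d' * h ≤ ∑ j, c j * κ j →
        PairNum ℂ K n δ h → PairKod ℂ K n δ h ∧
          (∀ j, PairNum ℂ (Y j) (y j) (δY j) (κ j)) ∧ d' * h = ∑ j, c j * κ j) ∧
      ∀ δ' : ∀ j, MemDiv (B j), (∀ j, IsRestrMem (B j) δ (δ' j)) → ∀ ν : Fin r → ℕ,
        (∀ j, MemNum (B j) (f j) (δ' j) (ν j)) → ∑ j, c j * ν j ≤ d * h → PairNum ℂ K n δ h) ∧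
    ∀ (j : Fin r) (δ : Place ℂ (Y j) → ℝ) (h : ℕ), PairKod ℂ (Y j) (y j) δ h →
      NumGe ℂ (Y j) (y j) δ h := by
  classical
  refine ⟨fun z S hz hS hf hd => shearer hz hS hf hd,
    fun L _ _ Y _ y hY hc d' hd hd' hdd hs hBL => ?_⟩
  have hkn : ∀ (j : Fin r) (δ : Place ℂ (Y j) → ℝ) (h : ℕ), PairKod ℂ (Y j) (y j) δ h →
      NumGe ℂ (Y j) (y j) δ h := fun j δ h hk => kod_num (hY j).dim hk
  refine ⟨?_, fun δ δY horb h => ?_, hkn⟩
  · obtain ⟨D, hD, h1, h2⟩ := Pool.Agent.H891.OM.rb inferInstance hn hY hd' hdd hBL hs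
    refine ⟨D, hD, fun S => ?_, fun hL δ δY horb => h2 hL δ δY (orb_loc horb d')⟩
    obtain ⟨S', hS'⟩ := h1 S
    exact ⟨S', fun δ δY horb => hS' δ δY (orb_loc horb d')⟩
  have hram : LocBound n L δ Y δY c d' := orb_loc horb d'
  have hnum : PairNum ℂ K n δ h → ∀ ν : Fin r → ℕ,
      (∀ j, NumGe ℂ (Y j) (y j) (δY j) (ν j)) → ∑ j, c j * ν j ≤ d' * h ∧
        (∑ j, c j * ν j = d' * h → ∀ j, PairNum ℂ (Y j) (y j) (δY j) (ν j)) :=
    fun hh ν hν => ⟨Pool.Agent.H891.OM.num_ge inferInstance hn hY hd' hdd hBL hs hram hh hν,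
      fun he j => Pool.Agent.H891.OM.images inferInstance hn hY hd' hdd hBL hs hc hram hh hν
        he.symm.le j⟩
  have hkod : ∀ κ : Fin r → ℕ, (∀ j, PairKod ℂ (Y j) (y j) (δY j) (κ j)) →
      d' * h ≤ ∑ j, c j * κ j → PairKod ℂ K n δ h := by
    intro κ hκ hle
    obtain ⟨x₁, hx₁⟩ := Pool.Agent.W636.PG.exists_basis ℂ K n hn
    have hxΩ₁ : IsTranscendenceBasis ℂ (algebraMap K (AlgebraicClosure K) ∘ x₁) :=
      hx₁.algebraMap_comp
    obtain ⟨G₁, hG₁⟩ := Pool.Agent.W636.PG.exists_duals ℂ (AlgebraicClosure K) n _ hxΩ₁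
    obtain ⟨a, z, hz, hzR, ha⟩ := exists_ratios hxΩ₁ hG₁ hn hY hd' hdd hBL hs hκ
    have hha : h ≤ a := by
      have h1 : d' * h < d' * (a + 1) := by
        rw [mul_add, mul_one]
        omega
      exact Nat.lt_succ_iff.1 (Nat.lt_of_mul_lt_mul_left h1)
    refine Pool.Agent.H891.OM.rh_kod inferInstance hn hY hd' hdd hBL hs hc hram (fun j => ?_)
      (z := z ∘ Fin.castLE hha) (hz.comp _ (Fin.castLE_injective hha)) fun i => hzR _
    obtain ⟨m, hm, ω, hω, X, hX, hind⟩ := hκ j
    refine ⟨m, hm, fun _ => ω 0, fun _ => hω 0, X, fun _ => hX 0, ?_⟩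
    exact algebraicIndependent_empty_type
  refine ⟨hnum, fun κ hκ hle hh => ?_, fun δ' hδ ν hν hle' S => ?_⟩
  · obtain ⟨h1, h2⟩ := hnum hh κ fun j => hkn j _ _ (hκ j)
    have h3 : ∑ j, c j * κ j = d' * h := le_antisymm h1 hle
    exact ⟨hkod κ hκ hle, h2 h3, h3.symm⟩
  · obtain ⟨D, hD, h1⟩ := bl_dist inferInstance hn hd (fun j => (hY j).fam) hBL
    choose C hC using fun j => mem_num (hν j) S (Nat.mul_pos hd hD)
    refine ⟨∏ j, C j ^ c j + 1, fun m N hm hN => ?_⟩
    refine Pool.Agent.H891.KS.pow_bound hm hd hle' ?_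
    have h4 := h1 δ δ' hδ S m 1 N (fun j => C j * m ^ ν j) hN fun j N' hN' => hC j m N' hm hN'
    have h5 : ∏ j, (C j * m ^ ν j) ^ (c j * D) =
        ((∏ j, C j ^ c j) * m ^ (∑ j, c j * ν j)) ^ D := by
      rw [← Finset.prod_pow_eq_pow_sum, ← Finset.prod_mul_distrib, ← Finset.prod_pow]
      refine Finset.prod_congr rfl fun j _ => ?_
      rw [mul_pow, mul_pow, ← pow_mul, ← pow_mul, ← pow_mul]
      congr 2
      ring
    rw [h5, pow_mul] at h4
    exact (Nat.pow_le_pow_iff_left hD.ne').1 h4

end Pool.Agent.Results.MP_e23cd6_ag.OrbifoldImages
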